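import Mathlib

/-!
# Optimal burning sequences need not contain minimum lazy burning sets

For `MP_50e72c_co`.  A hypergraph on six vertices with burning number `4` and lazy burning number
`2`, and an optimal burning sequence no two of whose sources form a lazy burning set.
-/

namespace Pool.Agent.Results.MP_50e72c_co.SourcesNotLazy

open Finset

variable {V : Type} [Fintype V] [DecidableEq V]

/-- The burned vertices after one application of the propagation rule to the set `B` of burned
vertices: `v` catches fire if some edge `e` with at least two vertices contains `v` and all its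
other vertices lie in `B`. -/
def step (E : Finset (Finset V)) (B : Finset V) : Finset V :=
  B ∪ univ.filter (fun v => ∃ e ∈ E, 2 ≤ e.card ∧ v ∈ e ∧ e.erase v ⊆ B)

/-- The set of burned vertices at the end of round `r`, with source `u r` in round `r ≥ 1`. -/
def fire (E : Finset (Finset V)) (u : ℕ → V) : ℕ → Finset V
  | 0 => ∅
  | r + 1 => insert (u (r + 1)) (step E (fire E u r))

/-- `(u 1, …, u k)` is a burning sequence. -/
def IsBurningSeq (E : Finset (Finset V)) (k : ℕ) (u : ℕ → V) : Prop :=
  (∀ r < k, u (r + 1) ∉ fire E u r) ∧ fire E u k = univ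

/-- The burning number `b(H)`. -/
noncomputable def burningNumber (E : Finset (Finset V)) : ℕ :=
  sInf {k : ℕ | ∃ u : ℕ → V, IsBurningSeq E k u}

/-- `S` is a lazy burning set. -/
def IsLazyBurningSet (E : Finset (Finset V)) (S : Finset V) : Prop :=
  ∃ t : ℕ, (step E)^[t] S = univ

/-- The lazy burning number `b_L(H)`. -/
noncomputable def lazyBurningNumber (E : Finset (Finset V)) : ℕ :=
  sInf {k : ℕ | ∃ S : Finset V, IsLazyBurningSet E S ∧ S.card = k}

/-- The hypergraph: nested edges `{0,1,2}`, `{0,1,2,3}`, `{0,1,2,3,4}`, `{0,1,2,3,4,5}` and the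
edges `{0,3,4,w}` for `w = 1, 2, 5`. -/
def E₀ : Finset (Finset (Fin 6)) :=
  {{0, 1, 2}, {0, 1, 2, 3}, {0, 1, 2, 3, 4}, {0, 1, 2, 3, 4, 5},
    {0, 3, 4, 1}, {0, 3, 4, 2}, {0, 3, 4, 5}}

/-- The optimal burning sequence `(0, 3, 4, 5)`. -/
def u₀ (r : ℕ) : Fin 6 := if r = 1 then 0 else if r = 2 then 3 else if r = 3 then 4 else 5

lemma seq₀ : IsBurningSeq E₀ 4 u₀ := by
  refine ⟨?_, ?_⟩
  · intro r hr
    interval_cases r
    · simp [fire]
    · decide
    · decide
    · decide
  · decide

lemma fixed_of_step {S : Finset (Fin 6)} (h : step E₀ S = S) (t : ℕ) : (step E₀)^[t] S = S := by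
  induction t with
  | zero => rfl
  | succ t ih => rw [Function.iterate_succ_apply', ih, h]

lemma step_small : ∀ S : Finset (Fin 6), S.card < 2 → step E₀ S = S ∧ S ≠ univ := by
  intro S hS
  have : S.card = 0 ∨ S.card = 1 := by omega
  rcases this with h | h
  · rw [Finset.card_eq_zero] at h
    subst h
    decide
  · rw [Finset.card_eq_one] at h
    obtain ⟨a, rfl⟩ := h
    revert a
    decide

lemma lazy_eq : lazyBurningNumber E₀ = 2 := by
  have h2 : (2 : ℕ) ∈ {k : ℕ | ∃ S : Finset (Fin 6), IsLazyBurningSet E₀ S ∧ S.card = k} :=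
    ⟨{0, 1}, ⟨4, by decide⟩, by decide⟩
  have hle : lazyBurningNumber E₀ ≤ 2 := Nat.sInf_le h2
  have hmem := Nat.sInf_mem (⟨2, h2⟩ : Set.Nonempty _)
  have hge : ¬ lazyBurningNumber E₀ < 2 := by
    intro h
    obtain ⟨S, ⟨t, ht⟩, hS⟩ := hmem
    have hS2 : S.card < 2 := by
      rw [hS]; exact h
    obtain ⟨h1, h3⟩ := step_small S hS2
    rw [fixed_of_step h1] at ht
    exact h3 ht
  omega

lemma no_three : ∀ a b c : Fin 6,
    insert c (step E₀ (insert b (step E₀ (insert a (step E₀ ∅))))) ≠ univ := by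
  decide +kernel

lemma fire_mono (u : ℕ → Fin 6) (r : ℕ) : fire E₀ u r ⊆ fire E₀ u (r + 1) := by
  intro x hx
  simp only [fire, Finset.mem_insert]
  right
  unfold step
  exact Finset.mem_union_left _ hx

lemma burn_eq : burningNumber E₀ = 4 := by
  have h4 : (4 : ℕ) ∈ {k : ℕ | ∃ u : ℕ → Fin 6, IsBurningSeq E₀ k u} := ⟨u₀, seq₀⟩
  have hle : burningNumber E₀ ≤ 4 := Nat.sInf_le h4
  have hmem := Nat.sInf_mem (⟨4, h4⟩ : Set.Nonempty _)
  have hge : ¬ burningNumber E₀ < 4 := by
    intro h
    obtain ⟨u, -, hu⟩ := hmem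
    change fire E₀ u (burningNumber E₀) = univ at hu
    have h3 : fire E₀ u 3 = univ := by
      apply Finset.eq_univ_of_forall
      intro x
      have hmono : Monotone (fire E₀ u) := monotone_nat_of_le_succ (fire_mono u)
      have := hmono (show burningNumber E₀ ≤ 3 by omega)
      apply this
      rw [hu]
      exact Finset.mem_univ x
    exact no_three (u 1) (u 2) (u 3) h3
  omega

lemma not_lazy : ∀ S : Finset (Fin 6), S ⊆ {0, 3, 4, 5} → S.card = 2 →
    step E₀ S = S ∧ S ≠ univ := by
  intro S hS hc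
  have : ∀ S ∈ ({0, 3, 4, 5} : Finset (Fin 6)).powersetCard 2, step E₀ S = S ∧ S ≠ univ := by
    decide +kernel
  exact this S (Finset.mem_powersetCard.2 ⟨hS, hc⟩)

/-- There are a hypergraph `H` (with vertex set `Fin 6` and edge set `E`) and an optimal burning
sequence `(u 1, …, u k)`, `k = b(H)`, such that no `b_L(H)`-element subset of the set of its
sources is a lazy burning set. -/
theorem result :
    ∃ (E : Finset (Finset (Fin 6))) (u : ℕ → Fin 6),
      burningNumber E = 4 ∧ lazyBurningNumber E = 2 ∧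
      IsBurningSeq E (burningNumber E) u ∧
      ∀ S : Finset (Fin 6), S ⊆ (Finset.Icc 1 (burningNumber E)).image u →
        S.card = lazyBurningNumber E → ¬ IsLazyBurningSet E S := by
  refine ⟨E₀, u₀, burn_eq, lazy_eq, ?_, ?_⟩
  · rw [burn_eq]; exact seq₀
  · rw [burn_eq, lazy_eq]
    intro S hS hc
    have himg : (Finset.Icc 1 4).image u₀ = {0, 3, 4, 5} := by decide
    rw [himg] at hS
    obtain ⟨h1, h2⟩ := not_lazy S hS hc
    rintro ⟨t, ht⟩
    rw [fixed_of_step h1] at ht
    exact h2 ht

end Pool.Agent.Results.MP_50e72c_co.SourcesNotLazy
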